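import Pool.Agent.Q189.SS.Basic

/-!
# A weakly mixing system with a transitive point which has no transitive partner

The system is the orbit closure of the indicator of a set `P` containing `0` such that `P + 1` does
not meet `P - P`, constructed by adding generic translates.
-/

set_option autoImplicit false

open Set Filter Topology Pool.Agent.Q189.SS

namespace Pool.Agent.Results.MP_a8308c_an.NoPartner

/-- The orbit of `x` along times `n ≥ N` is dense. -/
def TransitiveFrom {X : Type*} [TopologicalSpace X] (N : ℕ) (T : X → X) (x : X) : Prop :=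
  Dense {y | ∃ n ≥ N, y = T^[n] x}

/-- One step of the construction. -/
def stepF (F : Set ℕ) (N s : ℕ) : Set ℕ :=
  {m | m ∈ F ∨ ∃ f ∈ F, m = f + 10 * N ∨ m = f + 11 * N ∨ m = f + 100 * N ∨ m = f + 101 * N + s}

/-- The finite sets with the bounds on their elements. -/
def st : ℕ → Set ℕ × ℕ
  | 0 => ({0}, 0)
  | k + 1 =>
    let N := 10 * ((st k).2 + (Nat.unpair k).1 + k + 1)
    (stepF (st k).1 N (Nat.unpair k).1, 102 * N + (Nat.unpair k).1)

/-- The `k`-th set. -/
def FF (k : ℕ) : Set ℕ := (st k).1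

/-- The `k`-th bound. -/
def MM (k : ℕ) : ℕ := (st k).2

/-- The `k`-th shift parameter. -/
def ss (k : ℕ) : ℕ := (Nat.unpair k).1

/-- The `k`-th scale. -/
def NN (k : ℕ) : ℕ := 10 * (MM k + ss k + k + 1)

theorem FF_zero : FF 0 = {0} := rfl

theorem FF_succ (k : ℕ) : FF (k + 1) = stepF (FF k) (NN k) (ss k) := rfl

theorem MM_succ (k : ℕ) : MM (k + 1) = 102 * NN k + ss k := rfl

theorem FF_le (k : ℕ) : ∀ m ∈ FF k, m ≤ MM k := by
  induction k with
  | zero =>
    intro m hm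
    rw [FF_zero] at hm
    rw [mem_singleton_iff.1 hm]
    exact Nat.zero_le _
  | succ k ih =>
    intro m hm
    rw [FF_succ] at hm
    rw [MM_succ]
    have hN : MM k ≤ NN k := by unfold NN; omega
    rcases hm with hm | ⟨f, hf, h⟩
    · have := ih m hm; omega
    · have := ih f hf; omega

theorem zero_mem (k : ℕ) : 0 ∈ FF k := by
  induction k with
  | zero => rw [FF_zero]; rfl
  | succ k ih => rw [FF_succ]; exact Or.inl ih

theorem FF_avoid (k : ℕ) : ∀ a ∈ FF k, ∀ b ∈ FF k, ∀ c ∈ FF k, a + 1 + b ≠ c := by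
  induction k with
  | zero =>
    intro a ha b hb c hc
    rw [FF_zero] at ha hb hc
    rw [mem_singleton_iff.1 hc]
    omega
  | succ k ih =>
    have hN : NN k = 10 * (MM k + ss k + k + 1) := rfl
    have key : ∀ m ∈ FF (k + 1), ∃ f ∈ FF k, f ≤ MM k ∧ (m = f ∨ m = f + 10 * NN k ∨
        m = f + 11 * NN k ∨ m = f + 100 * NN k ∨ m = f + 101 * NN k + ss k) := by
      intro m hm
      rw [FF_succ] at hm
      rcases hm with hm | ⟨f, hf, h⟩
      · exact ⟨m, hm, FF_le k m hm, Or.inl rfl⟩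
      · exact ⟨f, hf, FF_le k f hf, Or.inr h⟩
    intro a ha b hb c hc heq
    obtain ⟨a', ha', ha'', h1⟩ := key a ha
    obtain ⟨b', hb', hb'', h2⟩ := key b hb
    obtain ⟨c', hc', hc'', h3⟩ := key c hc
    have hih := ih a' ha' b' hb' c' hc'
    have hih2 := ih b' hb' a' ha' c' hc'
    have hab : a' + 1 + b' = b' + 1 + a' := by omega
    rcases h1 with h1 | h1 | h1 | h1 | h1 <;> rcases h2 with h2 | h2 | h2 | h2 | h2 <;>
      rcases h3 with h3 | h3 | h3 | h3 | h3 <;> omega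

theorem NN_strict (k : ℕ) : NN k < MM (k + 1) ∧ MM (k + 1) ≤ NN (k + 1) := by
  rw [MM_succ]
  constructor
  · have : 0 < NN k := by unfold NN; omega
    omega
  · unfold NN
    rw [MM_succ]
    unfold NN
    omega

theorem NN_mono {j k : ℕ} (h : j ≤ k) : NN j ≤ NN k := by
  induction k, h using Nat.le_induction with
  | base => exact le_rfl
  | succ k _ ih => exact ih.trans ((NN_strict k).1.le.trans (NN_strict k).2)

theorem FF_sub {j k : ℕ} (h : j ≤ k) : FF j ⊆ FF k := by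
  induction k, h using Nat.le_induction with
  | base => exact Subset.rfl
  | succ k _ ih => exact ih.trans fun m hm => by rw [FF_succ]; exact Or.inl hm

/-- The set `P`. -/
def P : Set ℕ := {m | ∃ k, m ∈ FF k}

theorem mem_P_iff (j m : ℕ) (hm : m < 10 * NN j) : m ∈ P ↔ m ∈ FF j := by
  constructor
  · rintro ⟨k, hk⟩
    rcases le_total k j with h | h
    · exact FF_sub h hk
    · induction k, h using Nat.le_induction with
      | base => exact hk
      | succ k hjk ih =>
        apply ih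
        rw [FF_succ] at hk
        have := NN_mono hjk
        rcases hk with hk | ⟨f, _, h⟩
        · exact hk
        · omega
  · intro h
    exact ⟨j, h⟩

theorem P_avoid : ∀ a ∈ P, ∀ b ∈ P, ∀ c ∈ P, a + 1 + b ≠ c := by
  rintro a ⟨i, ha⟩ b ⟨j, hb⟩ c ⟨k, hc⟩
  have h1 : i ≤ i + j + k := by omega
  have h2 : j ≤ i + j + k := by omega
  have h3 : k ≤ i + j + k := by omega
  exact FF_avoid _ a (FF_sub h1 ha) b (FF_sub h2 hb) c (FF_sub h3 hc)

/-- The windows: translates of the initial window. -/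
theorem windows (k i : ℕ) (hi : i < NN k) :
    (i + 10 * NN k ∈ P ↔ i ∈ P) ∧ (i + 11 * NN k ∈ P ↔ i ∈ P) ∧ (i + 100 * NN k ∈ P ↔ i ∈ P) ∧
      (i + (101 * NN k + ss k) ∈ P ↔ i ∈ P) := by
  have hN : NN k = 10 * (MM k + ss k + k + 1) := rfl
  have hN1 : 102 * NN k + ss k ≤ NN (k + 1) := (NN_strict k).2
  have hiP : i ∈ P ↔ i ∈ FF k := mem_P_iff k i (by omega)
  have hle := FF_le k
  have main : ∀ c : ℕ, (c = 10 * NN k ∨ c = 11 * NN k ∨ c = 100 * NN k ∨ c = 101 * NN k + ss k) →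
      (i + c ∈ P ↔ i ∈ P) := by
    intro c hc
    rw [hiP, mem_P_iff (k + 1) (i + c) (by omega), FF_succ]
    constructor
    · rintro (h | ⟨f, hf, h⟩)
      · have := hle _ h; omega
      · have hf' := hle f hf
        have : i = f := by omega
        rw [this]
        exact hf
    · intro h
      refine Or.inr ⟨i, h, by omega⟩
  exact ⟨main _ (Or.inl rfl), main _ (Or.inr (Or.inl rfl)), main _ (Or.inr (Or.inr (Or.inl rfl))),
    main _ (Or.inr (Or.inr (Or.inr rfl)))⟩

open Classical in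
/-- The indicator of `P`. -/
noncomputable def x : ℕ → Bool := fun m => decide (m ∈ P)

theorem x_eq_of_iff {m n : ℕ} (h : m ∈ P ↔ n ∈ P) : x m = x n := by
  unfold x
  simp [h]

theorem x_true {m : ℕ} : x m = true ↔ m ∈ P := by
  unfold x
  simp

/-- The key return time property. -/
theorem returns (s L N0 : ℕ) : ∃ n ≥ N0, ∃ i j : ℕ, ∀ t < L,
    x (t + i) = x t ∧ x (t + (i + n)) = x t ∧ x (t + j) = x t ∧ x (t + (j + (n + s))) = x t := by
  set k := Nat.pair s (L + N0) with hk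
  have hs : ss k = s := by unfold ss; rw [hk, Nat.unpair_pair]
  have hk' : L + N0 ≤ k := Nat.right_le_pair _ _
  have hN : NN k = 10 * (MM k + ss k + k + 1) := rfl
  refine ⟨NN k, by omega, 10 * NN k, 100 * NN k, fun t ht => ?_⟩
  obtain ⟨h1, h2, h3, h4⟩ := windows k t (by omega)
  refine ⟨x_eq_of_iff h1, ?_, x_eq_of_iff h3, ?_⟩
  · rw [show t + (10 * NN k + NN k) = t + 11 * NN k by ring]
    exact x_eq_of_iff h2
  · rw [show t + (100 * NN k + (NN k + s)) = t + (101 * NN k + ss k) by rw [hs]; ring]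
    exact x_eq_of_iff h4

theorem recurrent (L N : ℕ) : ∃ n ≥ N, ∀ i < L, x (i + n) = x i := by
  obtain ⟨n, hn, i, j, h⟩ := returns 0 L N
  exact ⟨i + n, by omega, fun t ht => (h t ht).2.1⟩

instance : CompactSpace (OC x) := isCompact_iff_compactSpace.1 isClosed_closure.isCompact

/-- Weak mixing on open rectangles. -/
theorem mixing_rect (U1 U2 V1 V2 : Set (OC x)) (hU1 : IsOpen U1) (hU2 : IsOpen U2)
    (hV1 : IsOpen V1) (hV2 : IsOpen V2) (h1 : U1.Nonempty) (h2 : U2.Nonempty) (h3 : V1.Nonempty)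
    (h4 : V2.Nonempty) (N : ℕ) : ∃ m ≥ N, (U1 ∩ (TS x)^[m] ⁻¹' V1).Nonempty ∧
      (U2 ∩ (TS x)^[m] ⁻¹' V2).Nonempty := by
  -- each of the sets contains the translate of a cylinder around `x`
  have key : ∀ U : Set (OC x), IsOpen U → U.Nonempty → ∃ a L : ℕ, ∀ z : OC x,
      (∀ i < L, (z : ℕ → Bool) i = x i) → (TS x)^[a] z ∈ U := by
    intro U hU hne
    obtain ⟨_, hy, a, -, rfl⟩ := (dense_orbit recurrent 0).inter_open_nonempty U hU hne
    have h5 : IsOpen ((TS x)^[a] ⁻¹' U) := hU.preimage ((TS_continuous x).iterate a)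
    obtain ⟨L, hL⟩ := exists_cyl_OC h5 (y := base x) hy
    exact ⟨a, L, fun z hz => hL z hz⟩
  obtain ⟨a1, L1, k1⟩ := key U1 hU1 h1
  obtain ⟨a2, L2, k2⟩ := key U2 hU2 h2
  obtain ⟨b1, L3, k3⟩ := key V1 hV1 h3
  obtain ⟨b2, L4, k4⟩ := key V2 hV2 h4
  -- it suffices to find return times with a prescribed difference
  suffices H : ∃ m ≥ N, ∃ n1 n2 i j : ℕ, m + a1 = n1 + b1 ∧ m + a2 = n2 + b2 ∧
      ∀ t < L1 + L2 + L3 + L4, x (t + i) = x t ∧ x (t + (i + n1)) = x t ∧
        x (t + j) = x t ∧ x (t + (j + n2)) = x t by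
    obtain ⟨m, hm, n1, n2, i, j, e1, e2, h⟩ := H
    refine ⟨m, hm, ⟨(TS x)^[a1] ((TS x)^[i] (base x)), k1 _ fun t ht => ?_, ?_⟩,
      ⟨(TS x)^[a2] ((TS x)^[j] (base x)), k2 _ fun t ht => ?_, ?_⟩⟩
    · rw [TS_iter_apply]
      exact (h t (by omega)).1
    · show (TS x)^[m] ((TS x)^[a1] ((TS x)^[i] (base x))) ∈ V1
      rw [← Function.iterate_add_apply, e1, add_comm n1 b1, Function.iterate_add_apply,
        ← Function.iterate_add_apply _ n1 i]
      refine k3 _ fun t ht => ?_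
      rw [TS_iter_apply, add_comm n1 i]
      exact (h t (by omega)).2.1
    · rw [TS_iter_apply]
      exact (h t (by omega)).2.2.1
    · show (TS x)^[m] ((TS x)^[a2] ((TS x)^[j] (base x))) ∈ V2
      rw [← Function.iterate_add_apply, e2, add_comm n2 b2, Function.iterate_add_apply,
        ← Function.iterate_add_apply _ n2 j]
      refine k4 _ fun t ht => ?_
      rw [TS_iter_apply, add_comm n2 j]
      exact (h t (by omega)).2.2.2
  rcases le_total (a1 + b2) (a2 + b1) with hle | hle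
  · obtain ⟨n, hn, i, j, h⟩ := returns (a2 + b1 - (a1 + b2)) (L1 + L2 + L3 + L4) (N + a1 + a2)
    refine ⟨n + b1 - a1, by omega, n, n + (a2 + b1 - (a1 + b2)), i, j, by omega, by omega, h⟩
  · obtain ⟨n, hn, i, j, h⟩ := returns (a1 + b2 - (a2 + b1)) (L1 + L2 + L3 + L4) (N + a1 + a2)
    refine ⟨n + b2 - a2, by omega, n + (a1 + b2 - (a2 + b1)), n, j, i, by omega, by omega,
      fun t ht => ?_⟩
    obtain ⟨q1, q2, q3, q4⟩ := h t ht
    exact ⟨q3, q4, q1, q2⟩

theorem prod_iter {X : Type*} (T : X → X) (n : ℕ) (p : X × X) :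
    (Prod.map T T)^[n] p = (T^[n] p.1, T^[n] p.2) := by
  rw [Prod.map_iterate]
  rfl

theorem weak_mixing : ∃ z : OC x × OC x, ∀ N, TransitiveFrom N (Prod.map (TS x) (TS x)) z := by
  have : Nonempty (OC x × OC x) := ⟨(base x, base x)⟩
  refine exists_dense_orbit ((TS_continuous x).prodMap (TS_continuous x)) ?_
  intro U V hU hV ⟨u, hu⟩ ⟨v, hv⟩ N
  obtain ⟨U1, U2, hU1, hU2, hu1, hu2, hUU⟩ := isOpen_prod_iff.1 hU u.1 u.2 hu
  obtain ⟨V1, V2, hV1, hV2, hv1, hv2, hVV⟩ := isOpen_prod_iff.1 hV v.1 v.2 hv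
  obtain ⟨m, hm, ⟨p, hp, hp'⟩, ⟨q, hq, hq'⟩⟩ := mixing_rect U1 U2 V1 V2 hU1 hU2 hV1 hV2
    ⟨_, hu1⟩ ⟨_, hu2⟩ ⟨_, hv1⟩ ⟨_, hv2⟩ N
  refine ⟨m, hm, (p, q), hUU ⟨hp, hq⟩, ?_⟩
  show (Prod.map (TS x) (TS x))^[m] (p, q) ∈ V
  rw [prod_iter]
  exact hVV ⟨hp', hq'⟩

theorem no_partner (y : OC x) : ¬ TransitiveFrom 0 (Prod.map (TS x) (TS x)) (base x, y) := by
  intro h
  have hcoord : ∀ i : ℕ, IsOpen {z : OC x | (z : ℕ → Bool) i = true} := by
    intro i
    have hc : Continuous (fun z : OC x => (z : ℕ → Bool) i) :=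
      (continuous_apply i).comp continuous_subtype_val
    exact (isOpen_discrete ({true} : Set Bool)).preimage hc
  have hx0 : x 0 = true := x_true.2 ⟨0, zero_mem 0⟩
  -- some coordinate of `y` is `true`
  obtain ⟨t, ht⟩ : ∃ t : ℕ, (y : ℕ → Bool) t = true := by
    obtain ⟨_, ⟨-, h2⟩, n, -, rfl⟩ := h.inter_open_nonempty
      (univ ×ˢ {z : OC x | (z : ℕ → Bool) 0 = true}) (isOpen_univ.prod (hcoord 0))
      ⟨(base x, base x), trivial, hx0⟩
    rw [prod_iter] at h2
    have h3 : ((TS x)^[n] y : ℕ → Bool) 0 = true := h2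
    rw [TS_iter_apply] at h3
    exact ⟨_, h3⟩
  -- a point with coordinate `t + 1` equal to `true`
  obtain ⟨w, hw⟩ : ∃ w : OC x, (w : ℕ → Bool) (t + 1) = true := by
    obtain ⟨n, hn, h3⟩ := recurrent 1 (t + 1)
    refine ⟨(TS x)^[n - (t + 1)] (base x), ?_⟩
    rw [TS_iter_apply]
    show x (t + 1 + (n - (t + 1))) = true
    rw [show t + 1 + (n - (t + 1)) = 0 + n by omega, h3 0 one_pos, hx0]
  obtain ⟨_, ⟨h1, h2⟩, n, -, rfl⟩ := h.inter_open_nonempty
    ({z : OC x | (z : ℕ → Bool) 0 = true} ×ˢ {z : OC x | (z : ℕ → Bool) (t + 1) = true})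
    ((hcoord 0).prod (hcoord (t + 1))) ⟨(base x, w), hx0, hw⟩
  rw [prod_iter] at h1 h2
  have h3 : ((TS x)^[n] (base x) : ℕ → Bool) 0 = true := h1
  have h4 : ((TS x)^[n] y : ℕ → Bool) (t + 1) = true := h2
  rw [TS_iter_apply] at h3 h4
  have h5 : n ∈ P := by
    have : x (0 + n) = true := h3
    rw [zero_add] at this
    exact x_true.1 this
  -- the two ones of `y` occur in `x`
  obtain ⟨k, hk⟩ := mem_OC.1 y.2 (t + 1 + n + 1)
  have h6 : t + k ∈ P := x_true.1 (by rw [hk t (by omega)]; exact ht)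
  have h7 : t + 1 + n + k ∈ P := x_true.1 (by rw [hk (t + 1 + n) (by omega)]; exact h4)
  exact P_avoid n h5 (t + k) h6 _ h7 (by omega)

/-- **Positive answer to Q1.** There is a weakly mixing system (on a compact metric space, with a
continuous surjection) with a transitive point `x` such that no pair `(x, y)` is transitive. -/
theorem result : ∃ (X : Type) (_ : MetricSpace X) (_ : CompactSpace X) (T : X → X),
    Continuous T ∧ Function.Surjective T ∧ (∃ z : X × X, TransitiveFrom 1 (Prod.map T T) z) ∧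
    ∃ x : X, TransitiveFrom 1 T x ∧ ∀ y : X, ¬ TransitiveFrom 0 (Prod.map T T) (x, y) := by
  let _ : MetricSpace (OC x) := TopologicalSpace.metrizableSpaceMetric (OC x)
  obtain ⟨z, hz⟩ := weak_mixing
  exact ⟨OC x, inferInstance, inferInstance, TS x, TS_continuous x, TS_surjective recurrent,
    ⟨z, hz 1⟩, base x, dense_orbit recurrent 1, no_partner⟩

end Pool.Agent.Results.MP_a8308c_an.NoPartner
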